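import Pool.Agent.H37.CNS.Stmts
import Pool.Agent.H37.CNZ.Stmts
import Pool.Agent.H37.CNH.Stmts
import Pool.Agent.H14.CNH.UQT

/-!
# Board `cns`, row VLF (helper26): the last group of a quotient is the image of the last group

Set-up as in `Pool/Agent/H3/CNZ/QCC.lean` (helper3).
-/

set_option autoImplicit false

namespace Pool.CND

open Finset

/-- the place `z ↦ P.ord (σ z)` -/
private noncomputable def vlfPl {k L : Type} [Field k] [Field L] [Algebra k L] (P : Place k L)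
    (σ : L ≃ₐ[k] L) : Place k L where
  ord z := P.ord (σ z)
  ord_mul x y hx hy := by
    rw [map_mul]
    exact P.ord_mul _ _ (by simpa using hx) (by simpa using hy)
  ord_add x y hx hy hxy := by
    rw [map_add]
    refine P.ord_add _ _ (by simpa using hx) (by simpa using hy) ?_
    rw [← map_add]
    exact (map_ne_zero_iff _ σ.injective).2 hxy
  ord_surj := by
    obtain ⟨x, hx, h1⟩ := P.ord_surj
    exact ⟨σ.symm x, by simpa using hx, by rw [AlgEquiv.apply_symm_apply]; exact h1⟩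
  ord_const c hc := by
    rw [AlgEquiv.commutes]
    exact P.ord_const c hc
  residue x hx h0 := by
    obtain ⟨c, hc⟩ := P.residue (σ x) (by simpa using hx) h0
    refine ⟨c, ?_⟩
    rcases hc with hc | hc
    · left
      apply σ.injective
      rw [hc, AlgEquiv.commutes]
    · right
      rw [map_sub, AlgEquiv.commutes]
      exact hc

/-- the elements of `ram 0` are those which fix the place -/
private theorem vlf_ram0 {k L G : Type} [Field k] [Field L] [Algebra k L] [Group G] (P : Place k L)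
    (ρ : G →* (L ≃ₐ[k] L)) (g : G) : g ∈ ram P ρ 0 ↔ Fixes P (ρ g) := by
  constructor
  · intro h
    exact h.1
  · intro h
    refine ⟨h, fun u hu0 hu1 => ?_⟩
    have h1 : P.Ge (ρ g u - u) 1 :=
      P.ge_sub (h.ge (Or.inr (by rw [hu1]))) (Or.inr (by rw [hu1]))
    rcases h1 with h1 | h1
    · exact Or.inl (sub_eq_zero.1 h1)
    · exact Or.inr (by simpa using h1)

/-- for a `p`-group, `ram 1 = ram 0` -/
private theorem vlf_pg (hWLD : S_WLD) {p : ℕ} {k L G : Type} [Field k] [Field L] [Algebra k L]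
    [Group G] [Finite G] (P : Place k L) (ρ : G →* (L ≃ₐ[k] L)) (hp : p.Prime) (hck : CharP k p)
    (hρ : Function.Injective ρ) (hG : ∃ n : ℕ, Nat.card G = p ^ n) :
    ∃ I : Subgroup G, (I : Set G) = ram P ρ 1 ∧ (I : Set G) = ram P ρ 0 := by
  obtain ⟨W, I, hW, hI, hWI, -, m, hm, hIm⟩ := hWLD p k L G P ρ hp hck hρ
  obtain ⟨n, hn⟩ := hG
  have h1 : m ∣ p ^ n := by
    rw [← hn]
    exact (Dvd.intro _ hIm.symm).trans (Subgroup.card_subgroup_dvd_card I)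
  have h2 : m = 1 := by
    refine Nat.Coprime.eq_one_of_dvd ?_ h1
    exact Nat.Coprime.pow_right _ ((Nat.Prime.coprime_iff_not_dvd hp).2 hm).symm
  have h3 : W = I := Subgroup.eq_of_le_of_card_ge hWI (by rw [hIm, h2, one_mul])
  exact ⟨W, hW, h3 ▸ hI⟩

/-- `b` does not depend on the uniformiser -/
private theorem vlf_unif (hLON : S_LON) (hINJ : S_INJ) {k L : Type} [Field k] [Field L]
    [Algebra k L] (P : Place k L) (g : L ≃ₐ[k] L) (u : L) (hg : Fixes P g) (hg1 : g ≠ 1)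
    (hu : u ≠ 0) (hu1 : P.ord u = 1) : P.b g = P.ord (g u - u) - 1 := by
  have key : ∀ v w : L, v ≠ 0 → w ≠ 0 → P.ord v = 1 → P.ord w = 1 →
      P.ord (g v - v) ≤ P.ord (g w - w) := by
    intro v w hv hw hv1 hw1
    have h0 : ∀ z : L, z ≠ 0 → P.ord z = 1 → g z - z ≠ 0 := fun z hz hz1 h =>
      hg1 (hINJ k L P g z hg hz hz1 (sub_eq_zero.1 h))
    have h1 : P.Ge (g v - v) 1 :=
      P.ge_sub (hg.ge (Or.inr (by rw [hv1]))) (Or.inr (by rw [hv1]))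
    have h2 : 1 ≤ P.ord (g v - v) := h1.resolve_left (h0 v hv hv1)
    have h3 := hLON k L P g v (P.ord (g v - v) - 1) hg hv hv1 (by linarith)
      (Or.inr (by linarith)) w
    have h4 := (h3.resolve_right hw).resolve_left (h0 w hw hw1)
    rw [hw1] at h4
    linarith
  have h1 := key u P.pi hu P.pi_ne hu1 P.ord_pi
  have h2 := key P.pi u P.pi_ne hu P.ord_pi hu1
  unfold Place.b
  rw [le_antisymm h2 h1]


open H14UQT in
open scoped Classical in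
/-- a coset with the largest mean contains an element with the largest `b` -/
private theorem vlf_grp {G : Type} [Group G] [Fintype G] (b : G → ℤ) (N I : Subgroup G) (l : ℤ)
    (g₀ g' : G) (B₀ B' : ℤ) (hU : UM b I) (hNI : N ≤ I) (hl : IsLst b I l) (hg₀ : g₀ ∈ I)
    (hg₀N : g₀ ∉ N) (hg₀l : b g₀ = l) (hg : g' ∈ I) (hgN : g' ∉ N)
    (h₀ : sm b {x | g₀⁻¹ * x ∈ N} = Nat.card N * B₀)
    (h' : sm b {x | g'⁻¹ * x ∈ N} = Nat.card N * B') (hBB : B₀ ≤ B') :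
    ∃ g ∈ I, g'⁻¹ * g ∈ N ∧ b g = l := by
  set T0 : ℤ := ∑ n, if n ∈ N ∧ n ≠ 1 then b n else 0 with hT0
  have hcard : 0 ≤ (Nat.card N : ℤ) := Nat.cast_nonneg _
  have hne : ∀ g, g ∉ N → ∀ n ∈ N, g * n ≠ 1 ∧ g * n ∉ N := by
    intro g hg n hn
    have : g * n ∉ N := by
      intro h
      apply hg
      have := N.mul_mem h (N.inv_mem hn)
      simpa using this
    exact ⟨fun h => this (h ▸ N.one_mem), this⟩
  have hg₀1 : g₀ ≠ 1 := fun h => hg₀N (h ▸ N.one_mem)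
  have hlow : l + T0 ≤ Nat.card N * B₀ := by
    rw [← h₀, coset_sum, split_one (fun n => b (g₀ * n)) N, mul_one, hg₀l]
    refine add_le_add le_rfl ?_
    refine Finset.sum_le_sum fun n _ => ?_
    by_cases h : n ∈ N ∧ n ≠ 1
    · rw [if_pos h, if_pos h]
      obtain ⟨h4, h5⟩ := h
      have h7 := hU.mul g₀ hg₀ n (hNI h4) hg₀1 h5 (hne g₀ hg₀N n h4).1
      rwa [hg₀l, min_eq_right (hl.le n (hNI h4) h5)] at h7
    · rw [if_neg h, if_neg h]
  obtain ⟨g, hgm, hmax⟩ := Finset.exists_max_image (univ.filter (fun x => g'⁻¹ * x ∈ N)) b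
    ⟨g', by simp [N.one_mem]⟩
  have hg2 : g'⁻¹ * g ∈ N := by simpa using hgm
  have hge : g = g' * (g'⁻¹ * g) := by group
  have hgI : g ∈ I := by
    rw [hge]
    exact I.mul_mem hg (hNI hg2)
  have hgN' : g ∉ N := by
    rw [hge]
    exact (hne g' hgN _ hg2).2
  have hg1 : g ≠ 1 := fun h => hgN' (h ▸ N.one_mem)
  refine ⟨g, hgI, hg2, ?_⟩
  have hset : {x | g'⁻¹ * x ∈ N} = {x | g⁻¹ * x ∈ N} := by
    ext x
    have e1 : g'⁻¹ * x = (g'⁻¹ * g) * (g⁻¹ * x) := by group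
    constructor
    · intro h
      have h2 : g'⁻¹ * x ∈ N := h
      rw [e1] at h2
      exact (N.mul_mem_cancel_left hg2).mp h2
    · intro h
      show g'⁻¹ * x ∈ N
      rw [e1]
      exact N.mul_mem hg2 h
  have h3 : (∑ n, if n ∈ N ∧ n ≠ 1 then b (g * n) else 0) ≤ T0 := by
    refine Finset.sum_le_sum fun n _ => ?_
    by_cases h : n ∈ N ∧ n ≠ 1
    · rw [if_pos h, if_pos h]
      obtain ⟨h4, h5⟩ := h
      obtain ⟨h6, -⟩ := hne g hgN' n h4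
      have h7 := hU.mul g⁻¹ (I.inv_mem hgI) (g * n) (I.mul_mem hgI (hNI h4))
        (inv_ne_one.mpr hg1) h6 (by simpa using h5)
      rw [inv_mul_cancel_left, hU.inv g hgI hg1] at h7
      have h8 : b (g * n) ≤ b g := by
        apply hmax
        simp only [Finset.mem_filter, Finset.mem_univ, true_and]
        rw [← mul_assoc]
        exact N.mul_mem hg2 h4
      rw [min_eq_right h8] at h7
      exact h7
    · rw [if_neg h, if_neg h]
  have h5 : b g + (∑ n, if n ∈ N ∧ n ≠ 1 then b (g * n) else 0) = Nat.card N * B' := by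
    rw [← h', hset, coset_sum, split_one (fun n => b (g * n)) N, mul_one]
  have h6 : (Nat.card N : ℤ) * B₀ ≤ Nat.card N * B' := mul_le_mul_of_nonneg_left hBB hcard
  have h7 := hl.le g hgI hg1
  linarith

theorem vlf_thm (hTOT : S_TOT) (hRMX : S_RMX) (hFXP : S_FXP) (hRST : S_RST)
    (hART : S_ART) (hHER : S_HER) (hTRV : S_TRV) (hWLD : S_WLD) (hRAM : S_RAM)
    (hUMW : S_UMW) (hINJ : S_INJ) (hLON : S_LON) : S_VLF := by
  classical
  intro p k L L₁ G G₁ _ _ _ _ _ _ _ _ _ ρ ρ₁ π j t₁ P P₁ e l l₁ hp hck hG hcov hcov₁ hq he1 hP₁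
    hl1 hlπ hl₁1 hl₁ne v hv
  have : Fintype G := Fintype.ofFinite G
  have : Fintype G₁ := Fintype.ofFinite G₁
  have hρ := hcov.inj
  have hρ₁ := hcov₁.inj
  have hG₁ : ∃ n : ℕ, Nat.card G₁ = p ^ n := by
    obtain ⟨n, hn⟩ := hG
    have h1 : Nat.card G₁ ∣ p ^ n := by
      rw [← hn]
      exact Subgroup.card_dvd_of_surjective π hq.surj
    obtain ⟨m, -, hm⟩ := (Nat.dvd_prime_pow hp).1 h1
    exact ⟨m, hm⟩
  have he0 : (0 : ℤ) < e := by exact_mod_cast he1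
  have hj0 : ∀ z : L₁, z ≠ 0 → j z ≠ 0 := fun z hz => (map_ne_zero_iff _ j.injective).2 hz
  have hρ₁0 : ∀ (γ : G₁) (z : L₁), z ≠ 0 → ρ₁ γ z ≠ 0 := fun γ z hz =>
    (map_ne_zero_iff _ (ρ₁ γ).injective).2 hz
  -- the groups at `P`
  obtain ⟨I, hI1, hI0⟩ := vlf_pg hWLD P ρ hp hck hρ hG
  obtain ⟨I₁, hI₁1, hI₁0⟩ := vlf_pg hWLD P₁ ρ₁ hp hck hρ₁ hG₁
  have hfixI : ∀ g : G, g ∈ I ↔ Fixes P (ρ g) := by
    intro g
    rw [← SetLike.mem_coe, hI0]
    exact vlf_ram0 P ρ g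
  have hfixI₁ : ∀ g : G₁, g ∈ I₁ ↔ Fixes P₁ (ρ₁ g) := by
    intro g
    rw [← SetLike.mem_coe, hI₁0]
    exact vlf_ram0 P₁ ρ₁ g
  set N : Subgroup G := π.ker ⊓ I with hNdef
  have hN : ∀ g, g ∈ N ↔ g ∈ I ∧ π g = 1 := by
    intro g
    rw [hNdef, Subgroup.mem_inf, MonoidHom.mem_ker]
    exact and_comm
  have hNI : N ≤ I := inf_le_right
  have hfixN : ∀ n ∈ N, Fixes P (ρ n) := fun n hn => (hfixI n).1 (hNI hn)
  have hJ : ∀ g, g ∈ N ↔ g ∈ π.ker ∧ Fixes P (ρ g) := by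
    intro g
    rw [hNdef, Subgroup.mem_inf, hfixI]
  have hnormN : ∀ g ∈ I, ∀ n ∈ N, g * n * g⁻¹ ∈ N := by
    intro g hg n hn
    obtain ⟨hn1, hn2⟩ := (hN n).1 hn
    refine (hN _).2 ⟨I.mul_mem (I.mul_mem hg hn1) (I.inv_mem hg), ?_⟩
    rw [map_mul, map_mul, hn2, mul_one, map_inv, mul_inv_cancel]
  have hfixj : ∀ n ∈ N, ∀ y : L₁, ρ n (j y) = j y := by
    intro n hn y
    rw [hq.eqv, ((hN n).1 hn).2, map_one, AlgEquiv.one_apply]
  -- `e = |N|`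
  have heN : e = Nat.card N := by
    obtain ⟨w, hw0, hwC, hword⟩ := hRMX k L G P ρ π.ker N hJ
    obtain ⟨y, rfl⟩ := hq.fix w (fun g hg => hwC g (MonoidHom.mem_ker.2 hg))
    have hy0 : y ≠ 0 := by
      rintro rfl
      exact hw0 (map_zero j)
    have h1 : (e : ℤ) ∣ Nat.card N := by
      have h := hP₁ y hy0
      rw [hword] at h
      exact ⟨_, h.symm⟩
    have h2 : (Nat.card N : ℤ) ∣ e := by
      obtain ⟨z, hz0, hz1⟩ := P₁.ord_surj
      have h3 := hTOT k L G P ρ N hρ hfixN (j z) (hj0 z hz0) (fun n hn => hfixj n hn z)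
      rw [← hP₁ z hz0, hz1, mul_one] at h3
      exact h3
    exact Nat.dvd_antisymm (by exact_mod_cast h1) (by exact_mod_cast h2)
  -- the inertia group of `P₁`
  have hmap : I₁ = I.map π := by
    ext γ
    rw [hfixI₁, Subgroup.mem_map]
    constructor
    · obtain ⟨g, rfl⟩ := hq.surj γ
      intro hg
      obtain ⟨a, haC, ha⟩ := hTRV k L G ρ π.ker P (vlfPl P (ρ g)) (by
        intro z hz hzC hPz
        obtain ⟨y, rfl⟩ := hq.fix z (fun g hg => hzC g (MonoidHom.mem_ker.2 hg))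
        have hy0 : y ≠ 0 := by
          rintro rfl
          exact hz (map_zero j)
        show P.ord (ρ g (j y)) = 0
        rw [hq.eqv, ← hP₁ _ (hρ₁0 _ y hy0), hg y hy0, hP₁ y hy0]
        exact hPz)
      refine ⟨g * a⁻¹, ?_, ?_⟩
      · rw [hfixI]
        intro z hz
        have h3 : P.ord (ρ g (ρ a⁻¹ z)) = P.ord (ρ a (ρ a⁻¹ z)) :=
          ha (ρ a⁻¹ z) (by simpa using hz)
        rw [← AlgEquiv.mul_apply, ← AlgEquiv.mul_apply, ← map_mul, ← map_mul, mul_inv_cancel,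
          map_one, AlgEquiv.one_apply] at h3
        exact h3
      · rw [map_mul, map_inv, MonoidHom.mem_ker.1 haC, inv_one, mul_one]
    · rintro ⟨g, hg, rfl⟩ z hz
      have h1 := hP₁ _ (hρ₁0 (π g) z hz)
      rw [← hq.eqv, (hfixI g).1 hg _ (hj0 z hz), ← hP₁ z hz] at h1
      exact mul_left_cancel₀ he0.ne' h1
  -- the means
  have hNpos : (0 : ℤ) < Nat.card N := by rw [← heN]; exact he0
  obtain ⟨F, hF, Q, hQ⟩ := hFXP k L G P ρ N hρ hfixN
  have hmean : ∀ g ∈ I, g ∉ N → sm (fun x => P.b (ρ x)) {x | g⁻¹ * x ∈ N} =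
      Nat.card N * P₁.b (ρ₁ (π g)) := by
    intro g hg hgN
    have hfix := (hfixI g).1 hg
    have hπ : π g ≠ 1 := fun h => hgN ((hN g).2 ⟨hg, h⟩)
    have hfix₁ : Fixes P₁ (ρ₁ (π g)) := (hfixI₁ _).1 (hmap ▸ Subgroup.mem_map.2 ⟨g, hg, rfl⟩)
    obtain ⟨γ, hγ, hγQ⟩ := hRST k L G P ρ N F Q g hF hQ (hnormN g hg) (fun n hn => by
      have h := hnormN g⁻¹ (I.inv_mem hg) n hn
      rwa [inv_inv] at h) hfix
    have hγ1 : γ ≠ 1 := by
      intro h
      apply hgN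
      refine hART k L G ρ N g hρ fun x hx => ?_
      have h3 := hγ ⟨x, (hF x).2 hx⟩
      rw [h, AlgEquiv.one_apply] at h3
      exact h3.symm
    rw [hHER k L G P ρ N F Q g γ hρ hfixN hF hQ hgN hfix hγ hγQ hγ1]
    congr 1
    have hyF : j P₁.pi ∈ F := (hF _).2 fun n hn => hfixj n hn _
    have hy0 : (⟨j P₁.pi, hyF⟩ : F) ≠ 0 := fun h => hj0 _ P₁.pi_ne (congrArg Subtype.val h)
    have hy1 : Q.ord (⟨j P₁.pi, hyF⟩ : F) = 1 := by
      have h3 := hQ _ hy0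
      rw [show (((⟨j P₁.pi, hyF⟩ : F)) : L) = j P₁.pi from rfl, ← hP₁ _ P₁.pi_ne, P₁.ord_pi,
        heN] at h3
      exact mul_left_cancel₀ hNpos.ne' h3
    rw [vlf_unif hLON hINJ Q γ _ hγQ hγ1 hy0 hy1]
    unfold Place.b
    congr 1
    have h5 : ((γ (⟨j P₁.pi, hyF⟩ : F) - (⟨j P₁.pi, hyF⟩ : F) : F) : L) =
        j (ρ₁ (π g) P₁.pi - P₁.pi) := by
      have h9 : ((γ (⟨j P₁.pi, hyF⟩ : F) : F) : L) = ρ g (j P₁.pi) := hγ _
      rw [map_sub, ← hq.eqv, ← h9]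
      rfl
    have h6 : ρ₁ (π g) P₁.pi - P₁.pi ≠ 0 := by
      intro h
      have h7 := hINJ k L₁ P₁ (ρ₁ (π g)) P₁.pi hfix₁ P₁.pi_ne P₁.ord_pi (sub_eq_zero.1 h)
      exact hπ (hρ₁ (by rw [h7, map_one]))
    have h7 : (γ (⟨j P₁.pi, hyF⟩ : F) - (⟨j P₁.pi, hyF⟩ : F) : F) ≠ 0 := by
      intro h
      rw [h] at h5
      exact hj0 _ h6 h5.symm
    have h8 := hQ _ h7
    rw [h5, ← hP₁ _ h6, heN] at h8
    exact mul_left_cancel₀ hNpos.ne' h8
  have hUM : UM (fun g => P.b (ρ g)) I := hUMW k L G P ρ I hρ hI1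
  have h01 : ram P ρ 1 = ram P ρ 0 := hI1.symm.trans hI0
  have h01' : ram P₁ ρ₁ 1 = ram P₁ ρ₁ 0 := hI₁1.symm.trans hI₁0
  obtain ⟨g₀, hg₀l, hg₀π⟩ := hlπ
  have hg₀1 : g₀ ≠ 1 := by
    rintro rfl
    exact hg₀π (map_one π)
  have hg₀I : g₀ ∈ I := (hfixI g₀).2 hg₀l.1
  have hlpos : 1 ≤ l := by
    rcases Nat.eq_zero_or_pos l with h | h
    · exfalso
      rw [h] at hl1 hg₀l
      rw [zero_add, h01] at hl1
      rw [hl1] at hg₀l
      exact hg₀1 hg₀l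
    · exact h
  have hl₁pos : 1 ≤ l₁ := by
    rcases Nat.eq_zero_or_pos l₁ with h | h
    · exfalso
      rw [h] at hl₁1 hl₁ne
      rw [zero_add, h01'] at hl₁1
      exact hl₁ne hl₁1
    · exact h
  have hle : ∀ g ∈ I, g ≠ 1 → P.b (ρ g) ≤ l := by
    intro g hg hg1
    by_contra hcon'
    have h2 : g ∈ ram P ρ (l + 1) := by
      refine (hRAM k L G P ρ g (l + 1) (by omega)).2 ⟨(hfixI g).1 hg, Or.inr ?_⟩
      push_cast
      linarith
    rw [hl1] at h2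
    exact hg1 h2
  have hle₁ : ∀ g ∈ I₁, g ≠ 1 → P₁.b (ρ₁ g) ≤ l₁ := by
    intro g hg hg1
    by_contra hcon'
    have h2 : g ∈ ram P₁ ρ₁ (l₁ + 1) := by
      refine (hRAM k L₁ G₁ P₁ ρ₁ g (l₁ + 1) (by omega)).2 ⟨(hfixI₁ g).1 hg, Or.inr ?_⟩
      push_cast
      linarith
    rw [hl₁1] at h2
    exact hg1 h2
  have hg₀b : P.b (ρ g₀) = l := by
    refine le_antisymm (hle g₀ hg₀I hg₀1) ?_
    rcases ((hRAM k L G P ρ g₀ l hlpos).1 hg₀l).2 with h | h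
    · exact absurd (hρ (by rw [h, map_one])) hg₀1
    · exact h
  have hlst : IsLst (fun g => P.b (ρ g)) I (l : ℤ) := ⟨⟨g₀, hg₀I, hg₀1, hg₀b⟩, hle⟩
  have hg₀N : g₀ ∉ N := fun h => hg₀π ((hN g₀).1 h).2
  by_cases hv1 : v = 1
  · refine ⟨1, ?_, by rw [map_one, hv1]⟩
    refine (hRAM k L G P ρ 1 l hlpos).2 ⟨(hfixI 1).1 I.one_mem, Or.inl (map_one ρ)⟩
  · have hvI : v ∈ I₁ := (hfixI₁ v).2 hv.1
    have hvb : (l₁ : ℤ) ≤ P₁.b (ρ₁ v) := by
      rcases ((hRAM k L₁ G₁ P₁ ρ₁ v l₁ hl₁pos).1 hv).2 with h | h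
      · exact absurd (hρ₁ (by rw [h, map_one])) hv1
      · exact h
    rw [hmap] at hvI
    obtain ⟨g', hg', rfl⟩ := Subgroup.mem_map.1 hvI
    have hg'N : g' ∉ N := fun h => hv1 ((hN g').1 h).2
    have hB : P₁.b (ρ₁ (π g₀)) ≤ P₁.b (ρ₁ (π g')) :=
      (hle₁ (π g₀) (hmap ▸ Subgroup.mem_map.2 ⟨g₀, hg₀I, rfl⟩) hg₀π).trans hvb
    obtain ⟨g, hgI, hgg, hgb⟩ := vlf_grp (fun g => P.b (ρ g)) N I (l : ℤ) g₀ g'
      (P₁.b (ρ₁ (π g₀))) (P₁.b (ρ₁ (π g'))) hUM hNI hlst hg₀I hg₀N hg₀b hg' hg'N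
      (hmean g₀ hg₀I hg₀N) (hmean g' hg' hg'N) hB
    refine ⟨g, (hRAM k L G P ρ g l hlpos).2 ⟨(hfixI g).1 hgI, Or.inr hgb.ge⟩, ?_⟩
    have h9 := ((hN _).1 hgg).2
    rw [map_mul, map_inv] at h9
    exact (inv_mul_eq_one.1 h9).symm

end Pool.CND
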